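import Pool.Agent.H66.RH.Att

/-! # Fin: Reinhardt's conjecture from the bound for the differential system, with lattice packings by translates -/

set_option autoImplicit false

namespace Pool.Agent.H66.RH

open MeasureTheory Set Filter Topology
open Pool.H61.Rh Pool.H61.Sm

/-- the translate of `K` by `m v + n w` -/
def trans (K : Set (ℝ × ℝ)) (v w : ℝ × ℝ) (a : ℤ × ℤ) : Set (ℝ × ℝ) :=
  (fun x => x + (a.1 • v + a.2 • w)) '' K

theorem interior_trans (K : Set (ℝ × ℝ)) (v w : ℝ × ℝ) (a : ℤ × ℤ) :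
    interior (trans K v w a) = (fun x => x + (a.1 • v + a.2 • w)) '' interior K :=
  ((Homeomorph.addRight (a.1 • v + a.2 • w)).image_interior K).symm

theorem pack_iff {K : Set (ℝ × ℝ)} {v w : ℝ × ℝ} :
    Pack K v w ↔ v.1 * w.2 - v.2 * w.1 ≠ 0 ∧
      Pairwise fun a b : ℤ × ℤ => Disjoint (interior (trans K v w a)) (interior (trans K v w b)) := by
  constructor
  · rintro ⟨h1, h2⟩
    refine ⟨h1, fun a b hab => ?_⟩
    show Disjoint (interior (trans K v w a)) (interior (trans K v w b))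
    rw [interior_trans, interior_trans, Set.disjoint_left]
    rintro _ ⟨x, hx, rfl⟩ ⟨y, hy, hxy⟩
    have h3 : ¬ (a.1 - b.1 = 0 ∧ a.2 - b.2 = 0) := by
      rintro ⟨e1, e2⟩
      exact hab (Prod.ext (sub_eq_zero.1 e1) (sub_eq_zero.1 e2))
    apply h2 _ _ h3 x hx
    have h4 : x + (((a.1 - b.1 : ℤ) : ℝ) • v + ((a.2 - b.2 : ℤ) : ℝ) • w) = y := by
      have h5 : y + (b.1 • v + b.2 • w) = x + (a.1 • v + a.2 • w) := hxy
      rw [Int.cast_smul_eq_zsmul, Int.cast_smul_eq_zsmul, sub_smul, sub_smul,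
        ← eq_sub_iff_add_eq] at *
      rw [h5]
      abel
    rw [h4]
    exact hy
  · rintro ⟨h1, h2⟩
    refine ⟨h1, fun m n hmn x hx hx' => ?_⟩
    have h3 : ((m, n) : ℤ × ℤ) ≠ (0, 0) := by
      intro h
      exact hmn ⟨congrArg Prod.fst h, congrArg Prod.snd h⟩
    have h4 : Disjoint (interior (trans K v w (m, n))) (interior (trans K v w (0, 0))) := h2 h3
    rw [interior_trans, interior_trans, Set.disjoint_left] at h4
    refine h4 (a := x + (m • v + n • w)) ⟨x, hx, rfl⟩ ⟨x + (m • v + n • w), ?_, ?_⟩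
    · rwa [Int.cast_smul_eq_zsmul, Int.cast_smul_eq_zsmul] at hx'
    · simp

end Pool.Agent.H66.RH
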