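import Pool.Agent.H61.Rh.Gen
import Pool.Agent.H61.Sm.M9

/-! # Att: from a lower bound `c` for the differential system to a lattice packing of density at least `c`

`Pool.Agent.H61.Rh.Gen` gives lattice packings of density at least `c'` for each `c' < c`; here the
basis vectors are bounded, so that the lattices have a limit. -/

set_option autoImplicit false

namespace Pool.Agent.H66.RH

open MeasureTheory Set Filter Topology
open Pool.H61.Rh Pool.H61.Sm

/-- `packing_C_gen` with bounded vectors -/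
theorem packing_C_bdd {c : ℝ} (hc : c ≤ 9025 / 10000) (H : RSBound c) (K : Set ℂ)
    (hcv : Convex ℝ K) (hk : IsCompact K) (hi : (interior K).Nonempty) (hs : ∀ x ∈ K, -x ∈ K) :
    ∃ M : ℝ, ∀ c' : ℝ, 0 ≤ c' → c' < c → ∃ v w : ℂ, ‖v‖ ≤ M ∧ ‖w‖ ≤ M ∧ cr v w ≠ 0 ∧
      (∀ m n : ℤ, ¬ (m = 0 ∧ n = 0) → ∀ x ∈ interior K, x + (m * v + n * w) ∉ interior K) ∧
      c' ≤ (volume K).toReal / |cr v w| := by
  obtain ⟨R, hKR⟩ := hk.isBounded.exists_norm_le
  refine ⟨3 * R, fun c' hc0 hcc => ?_⟩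
  set η : ℝ := (c - c') / 3 with hη
  have hη0 : 0 < η := by rw [hη]; linarith
  have hη1 : η ≤ 1 / 3 := by rw [hη]; linarith
  have hcη : (1 + η) ^ 2 * c' ≤ c := by
    have h1 : c' ≤ 1 := by linarith
    have h2 : (1 + η) ^ 2 * c' = c' + (2 * η + η ^ 2) * c' := by ring
    have h3 : (2 * η + η ^ 2) * c' ≤ (2 * η + η ^ 2) * 1 :=
      mul_le_mul_of_nonneg_left h1 (by positivity)
    have h4 : η ^ 2 ≤ η * (1 / 3) := by rw [pow_two]; exact mul_le_mul_of_nonneg_left hη1 hη0.le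
    have h5 : c - c' = 3 * η := by rw [hη]; ring
    linarith
  obtain ⟨ν, hν, h1, h2⟩ := sn_of_body K hcv hk hi hs η hη0
  obtain ⟨p, q, hp, hq, hr, hcr, hV⟩ := hν.density_gen hc H
  have hR : (0 : ℝ) < 2 * (1 + η) := by positivity
  have hbd : ∀ z : ℂ, ν z = 1 → ‖((2 * (1 + η) : ℝ) : ℂ) * z‖ ≤ 3 * R := by
    intro z hz
    have h3 := hKR z (h1 z hz.le)
    have h4 := norm_nonneg z
    rw [norm_mul, Complex.norm_real, Real.norm_eq_abs, abs_of_pos hR]
    nlinarith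
  refine ⟨((2 * (1 + η) : ℝ) : ℂ) * p, ((2 * (1 + η) : ℝ) : ℂ) * q, hbd p hp, hbd q hq, ?_, ?_, ?_⟩
  · rw [cr_smul_left, cr_smul_right]
    positivity
  · intro m n hmn x hx hx'
    have e1 : (m : ℂ) * (((2 * (1 + η) : ℝ) : ℂ) * p)
        + n * (((2 * (1 + η) : ℝ) : ℂ) * q)
        = ((2 * (1 + η) : ℝ) : ℂ) * (m * p + n * q) := by ring
    rw [e1] at hx'
    have h3 := hν.lattice_far p q hp hq hr m n hmn
    have h4 : ν (((2 * (1 + η) : ℝ) : ℂ) * (m * p + n * q))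
        = 2 * (1 + η) * ν (m * p + n * q) := by
      rw [hν.hom, abs_of_pos hR]
    have h5 := h2 x hx
    have h6 := h2 _ hx'
    have h7 : ν (((2 * (1 + η) : ℝ) : ℂ) * (m * p + n * q)) ≤
        ν (x + ((2 * (1 + η) : ℝ) : ℂ) * (m * p + n * q)) + ν (-x) := by
      have := hν.tri (x + ((2 * (1 + η) : ℝ) : ℂ) * (m * p + n * q)) (-x)
      rwa [show x + ((2 * (1 + η) : ℝ) : ℂ) * (m * p + n * q) + -x
        = ((2 * (1 + η) : ℝ) : ℂ) * (m * p + n * q) by ring] at this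
    rw [hν.neg, h4] at h7
    have h8 : 2 * (1 + η) * 1 ≤ 2 * (1 + η) * ν (m * p + n * q) :=
      mul_le_mul_of_nonneg_left h3 hR.le
    linarith
  · have hsub : {z : ℂ | ν z ≤ 1} ⊆ K := fun z hz => h1 z hz
    have hfin : volume K ≠ ⊤ := hk.measure_lt_top.ne
    have hle : (volume {z : ℂ | ν z ≤ 1}).toReal ≤ (volume K).toReal :=
      ENNReal.toReal_mono hfin (measure_mono hsub)
    rw [cr_smul_left, cr_smul_right, abs_of_pos (by positivity), le_div_iff₀ (by positivity)]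
    have h9 : c' * (2 * (1 + η) * (2 * (1 + η) * cr p q)) = ((1 + η) ^ 2 * c') * (4 * cr p q) := by
      ring
    rw [h9]
    have h10 := mul_le_mul_of_nonneg_right hcη (show (0 : ℝ) ≤ 4 * cr p q by positivity)
    linarith

theorem packing_R2_bdd {c : ℝ} (hc : c ≤ 9025 / 10000) (H : RSBound c) (K : Set (ℝ × ℝ))
    (hcv : Convex ℝ K) (hk : IsCompact K) (hi : (interior K).Nonempty) (hs : ∀ x ∈ K, -x ∈ K) :
    ∃ M : ℝ, ∀ c' : ℝ, 0 ≤ c' → c' < c → ∃ v w : ℝ × ℝ, ‖v‖ ≤ M ∧ ‖w‖ ≤ M ∧ Pack K v w ∧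
      c' ≤ (volume K).toReal / |v.1 * w.2 - v.2 * w.1| := by
  let e := Complex.equivRealProdCLM
  have hint : interior (e ⁻¹' K) = e ⁻¹' interior K :=
    (e.toHomeomorph.preimage_interior K).symm
  have hvol : volume (e ⁻¹' K) = volume K := by
    have h1 : MeasurePreserving Complex.measurableEquivRealProd :=
      Complex.volume_preserving_equiv_real_prod
    have h2 := h1.measure_preimage_equiv K
    exact h2
  obtain ⟨M, hM⟩ := packing_C_bdd hc H (e ⁻¹' K)
    (hcv.linear_preimage e.toLinearEquiv.toLinearMap)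
    (e.toHomeomorph.isCompact_preimage.2 hk)
    (by
      rw [hint]
      obtain ⟨x, hx⟩ := hi
      refine ⟨e.symm x, ?_⟩
      simpa using hx)
    (by
      intro x hx
      have := hs (e x) hx
      simpa using this)
  refine ⟨M, fun c' h0 hcc => ?_⟩
  obtain ⟨v, w, hv, hw, hvw, hpack, hd⟩ := hM c' h0 hcc
  have hb : ∀ z : ℂ, ‖z‖ ≤ M → ‖e z‖ ≤ M := by
    intro z hz
    rw [Prod.norm_def]
    refine max_le ?_ ?_
    · exact (Complex.abs_re_le_norm z).trans hz
    · exact (Complex.abs_im_le_norm z).trans hz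
  refine ⟨e v, e w, hb v hv, hb w hw, ⟨?_, ?_⟩, ?_⟩
  · simpa [cr, e] using hvw
  · intro m n hmn x hx hx'
    refine hpack m n hmn (e.symm x) ?_ ?_
    · rw [hint]; simpa using hx
    · rw [hint]
      show e (e.symm x + (m * v + n * w)) ∈ interior K
      have h1 : e (e.symm x + (m * v + n * w)) = x + ((m : ℝ) • e v + (n : ℝ) • e w) := by
        have h2 : (m : ℂ) * v + n * w = (m : ℝ) • v + (n : ℝ) • w := by
          simp
        rw [h2, map_add, map_add, map_smul, map_smul, ContinuousLinearEquiv.apply_symm_apply]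
      rw [h1]
      exact hx'
  · rw [hvol] at hd
    simpa [cr, e] using hd

/-- arbitrary centre of symmetry -/
theorem packing_center_bdd {c : ℝ} (hc : c ≤ 9025 / 10000) (H : RSBound c) (K : Set (ℝ × ℝ))
    (hcv : Convex ℝ K) (hk : IsCompact K) (hi : (interior K).Nonempty) (o : ℝ × ℝ)
    (hs : ∀ x ∈ K, o + o - x ∈ K) :
    ∃ M : ℝ, ∀ c' : ℝ, 0 ≤ c' → c' < c → ∃ v w : ℝ × ℝ, ‖v‖ ≤ M ∧ ‖w‖ ≤ M ∧ Pack K v w ∧
      c' ≤ (volume K).toReal / |v.1 * w.2 - v.2 * w.1| := by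
  let e : (ℝ × ℝ) ≃ₜ (ℝ × ℝ) := Homeomorph.addRight o
  have he : ∀ x, e x = x + o := fun x => rfl
  have hint : interior (e ⁻¹' K) = e ⁻¹' interior K := (e.preimage_interior K).symm
  have hvol : volume (e ⁻¹' K) = volume K := by
    have : (e ⁻¹' K) = (fun x => x + o) ⁻¹' K := rfl
    rw [this]
    exact measure_preimage_add_right volume o K
  obtain ⟨M, hM⟩ := packing_R2_bdd hc H (e ⁻¹' K) (by
      have := hcv.translate_preimage_left o
      exact this) (e.isCompact_preimage.mpr hk) (by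
      obtain ⟨x, hx⟩ := hi
      refine ⟨x - o, ?_⟩
      rw [hint, Set.mem_preimage, he, sub_add_cancel]
      exact hx) (by
      intro x hx
      rw [Set.mem_preimage, he] at hx ⊢
      have := hs _ hx
      rwa [show o + o - (x + o) = -x + o by abel] at this)
  refine ⟨M, fun c' h0 hcc => ?_⟩
  obtain ⟨v, w, hv, hw, ⟨h1, h2⟩, h3⟩ := hM c' h0 hcc
  refine ⟨v, w, hv, hw, ⟨h1, ?_⟩, ?_⟩
  · intro m n hmn x hx hx'
    refine h2 m n hmn (x - o) ?_ ?_
    · rw [hint, Set.mem_preimage, he, sub_add_cancel]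
      exact hx
    · rw [hint, Set.mem_preimage, he]
      rwa [show x - o + ((m : ℝ) • v + (n : ℝ) • w) + o = x + ((m : ℝ) • v + (n : ℝ) • w) by abel]
  · rwa [hvol] at h3

/-- **The limit lattice.** -/
theorem exists_lattice {c : ℝ} (hc : c ≤ 9025 / 10000) (hc0 : 0 < c) (H : RSBound c)
    (K : Set (ℝ × ℝ)) (hcv : Convex ℝ K) (hk : IsCompact K) (hi : (interior K).Nonempty)
    (o : ℝ × ℝ) (hs : ∀ x ∈ K, o + o - x ∈ K) :
    ∃ v w : ℝ × ℝ, Pack K v w ∧ c ≤ (volume K).toReal / |v.1 * w.2 - v.2 * w.1| := by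
  obtain ⟨M, hM⟩ := packing_center_bdd hc H K hcv hk hi o hs
  have hch : ∀ n : ℕ, ∃ v w : ℝ × ℝ, ‖v‖ ≤ M ∧ ‖w‖ ≤ M ∧ Pack K v w ∧
      c * (1 - 1 / ((n : ℝ) + 2)) ≤ (volume K).toReal / |v.1 * w.2 - v.2 * w.1| := by
    intro n
    have hn : (0 : ℝ) < (n : ℝ) + 2 := by positivity
    have h1 : 0 < 1 / ((n : ℝ) + 2) := by positivity
    have h2 : 1 / ((n : ℝ) + 2) ≤ 1 := by
      rw [div_le_one hn]
      have : (0 : ℝ) ≤ n := Nat.cast_nonneg n
      linarith
    exact hM _ (mul_nonneg hc0.le (by linarith)) (by nlinarith)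
  choose v w hv hw hP hd using hch
  obtain ⟨x, -, φ, hφ, hlim⟩ := (isCompact_closedBall (0 : (ℝ × ℝ) × (ℝ × ℝ)) M).tendsto_subseq
    (x := fun n => (v n, w n)) (fun n => by
      rw [mem_closedBall_zero_iff, Prod.norm_def]
      exact max_le (hv n) (hw n))
  have hlv : Tendsto (fun n => v (φ n)) atTop (𝓝 x.1) := (continuous_fst.tendsto x).comp hlim
  have hlw : Tendsto (fun n => w (φ n)) atTop (𝓝 x.2) := (continuous_snd.tendsto x).comp hlim
  have hdet : Tendsto (fun n => |(v (φ n)).1 * (w (φ n)).2 - (v (φ n)).2 * (w (φ n)).1|) atTop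
      (𝓝 |x.1.1 * x.2.2 - x.1.2 * x.2.1|) := by
    have h1 := (continuous_fst.tendsto x.1).comp hlv
    have h2 := (continuous_snd.tendsto x.1).comp hlv
    have h3 := (continuous_fst.tendsto x.2).comp hlw
    have h4 := (continuous_snd.tendsto x.2).comp hlw
    exact ((h1.mul h4).sub (h2.mul h3)).abs
  have hV : 0 < (volume K).toReal := by
    refine ENNReal.toReal_pos ?_ hk.measure_lt_top.ne
    exact ((isOpen_interior.measure_pos volume hi).trans_le (measure_mono interior_subset)).ne'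
  have hge : ∀ n, (volume K).toReal ≤ |(v n).1 * (w n).2 - (v n).2 * (w n).1| := by
    intro n
    have h1 := density_le_one hcv hk (hP n)
    rwa [div_le_one (abs_pos.2 (hP n).1)] at h1
  have hge' : (volume K).toReal ≤ |x.1.1 * x.2.2 - x.1.2 * x.2.1| :=
    ge_of_tendsto' hdet fun n => hge (φ n)
  have hpos : 0 < |x.1.1 * x.2.2 - x.1.2 * x.2.1| := hV.trans_le hge'
  refine ⟨x.1, x.2, ⟨abs_pos.1 hpos, ?_⟩, ?_⟩
  · intro m n hmn z hz hz'
    have h1 : Tendsto (fun k => z + ((m : ℝ) • v (φ k) + (n : ℝ) • w (φ k))) atTop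
        (𝓝 (z + ((m : ℝ) • x.1 + (n : ℝ) • x.2))) :=
      tendsto_const_nhds.add ((hlv.const_smul _).add (hlw.const_smul _))
    have h2 := h1.eventually (isOpen_interior.mem_nhds hz')
    obtain ⟨k, hk'⟩ := h2.exists
    exact (hP (φ k)).2 m n hmn z hz hk'
  · rw [le_div_iff₀ hpos]
    have h1 : Tendsto (fun n : ℕ => 1 / ((φ n : ℝ) + 2)) atTop (𝓝 0) := by
      have h2 : Tendsto (fun n : ℕ => (φ n : ℝ) + 2) atTop atTop :=
        tendsto_atTop_add_const_right _ _ (tendsto_natCast_atTop_atTop.comp hφ.tendsto_atTop)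
      have h3 := tendsto_inv_atTop_zero.comp h2
      refine h3.congr fun n => ?_
      rw [Function.comp_apply, one_div]
    have h3 : Tendsto (fun n : ℕ => c * (1 - 1 / ((φ n : ℝ) + 2)) *
        |(v (φ n)).1 * (w (φ n)).2 - (v (φ n)).2 * (w (φ n)).1|) atTop
        (𝓝 (c * (1 - 0) * |x.1.1 * x.2.2 - x.1.2 * x.2.1|)) :=
      ((tendsto_const_nhds.sub h1).const_mul c).mul hdet
    rw [sub_zero, mul_one] at h3
    refine le_of_tendsto' h3 fun n => ?_
    have h4 := hd (φ n)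
    rwa [le_div_iff₀ (abs_pos.2 (hP (φ n)).1)] at h4

end Pool.Agent.H66.RH
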